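import Pool.Agent.AD.T.NCDefs

/-!
# TB Defs: three of the properties of the Green-Griffiths-Lang conjecture, and (iv) for curves
-/

set_option autoImplicit false

open MvPolynomial

noncomputable section

namespace Pool.Agent.H22.TB

open Pool.Agent.H17 (PN VanishesAt HolomorphicInto puncturedDisc ZariskiClosedIn)
open Pool.Agent.H17LG.Variety (FunField IsLogGeneralType)
open Pool.Agent.H62.FC (Homog)
open Pool.Agent.H17EF (projVar)

variable {N : ℕ}

/-- Three of the properties of the conjecture for the closed subvariety of `ℙ^N` given by `P`, with the exceptional set `Ξ`: general type, pseudo Picard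
hyperbolic, pseudo Brody hyperbolic; and every closed subvariety of dimension one which is not contained in `Ξ` is of general type. -/
structure GGLC (P : Ideal (MvPolynomial (Fin (N + 1)) ℂ)) [P.IsPrime] (Ξ : Set (PN N)) : Prop where
  closed : ZariskiClosedIn (projVar P) Ξ
  proper : Ξ ≠ projVar P
  generalType : ∀ w, 1 ≤ w → (∃ z : Fin w → FunField P, IsTranscendenceBasis ℂ z) →
    IsLogGeneralType (K := FunField P) (k := w) fun _ => False
  picard : ∀ f : ℂ → PN N, HolomorphicInto f puncturedDisc → (∀ z ∈ puncturedDisc, f z ∈ projVar P) →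
    (∃ z ∈ puncturedDisc, f z ∉ Ξ) →
    ∃ g : ℂ → PN N, HolomorphicInto g (Metric.ball 0 1) ∧ ∀ z ∈ puncturedDisc, g z = f z
  brody : ∀ f : ℂ → PN N, HolomorphicInto f Set.univ → (∀ z, f z ∈ projVar P) → (∃ z w, f z ≠ f w) → ∀ z, f z ∈ Ξ
  strongly : ∀ (Q : Ideal (MvPolynomial (Fin (N + 1)) ℂ)) [Q.IsPrime], Homog Q → P ≤ Q → ¬ projVar Q ⊆ Ξ →
    (∃ z : Fin 1 → FunField Q, IsTranscendenceBasis ℂ z) → IsLogGeneralType (K := FunField Q) (k := 1) fun _ => False

/-- The Zariski closure in `X` of the set `D`. -/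
def closureIn (X D : Set (PN N)) : Set (PN N) :=
  {x | x ∈ X ∧ ∀ (Q : MvPolynomial (Fin (N + 1)) ℂ) (e : ℕ), Q.IsHomogeneous e → (∀ y ∈ D, VanishesAt Q y) → VanishesAt Q x}

end Pool.Agent.H22.TB
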