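import Pool.Agent.H19T.FDefs
import Pool.Agent.H22.TB.BirC
import Pool.Agent.AD.P.Main

/-!
# TB OfSheets: from the finitely many maps to the properties (i), (ii), (iii), (iv) for curves; birational invariance
-/

set_option autoImplicit false

open MvPolynomial Topology Filter
open Pool.Agent.H17 (PN VanishesAt ZariskiClosedIn HolomorphicInto puncturedDisc)
open Pool.Agent.H62.FC (Homog)
open Pool.Agent.H17LG.Variety (FunField IsLogGeneralType)
open Pool.Agent.H17EF (projVar)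
open Pool.Agent.H19T (sheets sheetSet TorusSheets)

noncomputable section

namespace Pool.Agent.H22.TB

variable {N : ℕ}

theorem closureIn_closed (X D : Set (PN N)) : ZariskiClosedIn X (closureIn X D) := by
  refine ⟨{Q | ∃ e : ℕ, Q.IsHomogeneous e ∧ ∀ y ∈ D, VanishesAt Q y}, fun Q ⟨e, hQ, _⟩ => ⟨e, hQ⟩, ?_⟩
  ext x
  constructor
  · rintro ⟨hx, h⟩
    exact ⟨hx, fun Q ⟨e, hQ, hD⟩ => h Q e hQ hD⟩
  · rintro ⟨hx, h⟩
    exact ⟨hx, fun Q e hQ hD => h Q ⟨e, hQ, hD⟩⟩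

theorem subset_closureIn {X D : Set (PN N)} (h : D ⊆ X) : D ⊆ closureIn X D := fun x hx => ⟨h hx, fun _ _ _ hD => hD x hx⟩

theorem sheetSet_subset {n : ℕ} (X : Set (PN N)) (Λ : AddSubgroup (Fin n → ℂ)) (u : PN N → (Fin n → ℂ) ⧸ Λ) : sheetSet X Λ u ⊆ X := by
  intro x hx
  obtain ⟨Φ, hΦ, w, rfl⟩ := Set.mem_iUnion₂.1 hx
  exact hΦ.2.1 w

theorem eq_of_basis {K : Type} [Field K] [Algebra ℂ K] {a b : ℕ} {z : Fin a → K} {z' : Fin b → K} (hz : IsTranscendenceBasis ℂ z)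
    (hz' : IsTranscendenceBasis ℂ z') : a = b := by
  have h := hz.cardinalMk_eq hz'
  simpa using h

theorem gglc_of_sheets {n : ℕ} {P : Ideal (MvPolynomial (Fin (N + 1)) ℂ)} [P.IsPrime] (hdim : ∃ z : Fin (n + 1) → FunField P, IsTranscendenceBasis ℂ z)
    {Λ : AddSubgroup (Fin n → ℂ)} {u : PN N → (Fin n → ℂ) ⧸ Λ} (h : TorusSheets P Λ u)
    (hgt : IsLogGeneralType (K := FunField P) (k := n + 1) fun _ => False)
    (hpic : ∀ f : ℂ → PN N, HolomorphicInto f puncturedDisc → (∀ z ∈ puncturedDisc, f z ∈ projVar P) →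
      (∃ z ∈ puncturedDisc, f z ∉ sheetSet (projVar P) Λ u) →
      ∃ g : ℂ → PN N, HolomorphicInto g (Metric.ball 0 1) ∧ ∀ z ∈ puncturedDisc, g z = f z)
    (hbr : ∀ f : ℂ → PN N, HolomorphicInto f Set.univ → (∀ z, f z ∈ projVar P) → (∃ z w, f z ≠ f w) → ∀ z, f z ∈ sheetSet (projVar P) Λ u) :
    GGLC P (closureIn (projVar P) (sheetSet (projVar P) Λ u)) := by
  have hbr' : ∀ f : ℂ → PN N, HolomorphicInto f Set.univ → (∀ z, f z ∈ projVar P) → (∃ z w, f z ≠ f w) →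
      ∀ z, f z ∈ closureIn (projVar P) (sheetSet (projVar P) Λ u) := fun f hf hfX hne z =>
    subset_closureIn (sheetSet_subset _ _ _) (hbr f hf hfX hne z)
  refine ⟨closureIn_closed _ _, ?_, ?_, ?_, hbr', ?_⟩
  · intro heq
    obtain ⟨Q, e, hQ, hD, x, hx, hxQ⟩ := h.proper
    rw [← heq] at hx
    exact hxQ (hx.2 Q e hQ hD)
  · rintro w - ⟨z', hz'⟩
    obtain ⟨z, hz⟩ := hdim
    obtain rfl := eq_of_basis hz hz'
    exact hgt
  · rintro f hf hfX ⟨z, hz, hfz⟩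
    exact hpic f hf hfX ⟨z, hz, fun hmem => hfz (subset_closureIn (sheetSet_subset _ _ _) hmem)⟩
  · intro Q _ hQ hPQ hsub hz
    exact Pool.Agent.AD.P.strongly_one (closureIn_closed _ _) hbr' Q hQ hPQ hsub hz

end Pool.Agent.H22.TB
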