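import Mathlib

/-!
# TB Equi: rare returns of lines in complex tori

`Λ ≤ ℂ^n` cocompact, `v`, `e 0, …, e (d-1)` vectors such that the real span of the `e j` lies in the closure of `ℂ v + Λ`.  `K` closed and `Λ`-periodic such that all slices
`{t ∈ ℝ^d : b + ∑ t j e j + c v ∈ K for some ‖c‖ ≤ 1}` are null sets.  Then finite sets `H` in a disc of radius `R` with `b + z v ∈ K` for `z ∈ H`, with at most `n₀` points in every disc
of radius `s`, have at most `ε R²` elements, for `R ≥ R₀(ε)`, uniformly in `b`.  Proof: for a fine grid of points `t ∈ [0, 1]^d` the translations by `∑ t j e j` are approximated by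
translations by `a v` modulo `Λ`; double counting of the pairs `(z, t)`, `z ∈ H`.
-/

set_option autoImplicit false

open Metric Set Filter Topology MeasureTheory
open scoped Pointwise

namespace Pool.Agent.H22.TB

variable {n d : ℕ}

/-- the vector `∑ t j e j` -/
noncomputable def tv (e : Fin d → Fin n → ℂ) (t : Fin d → ℝ) : Fin n → ℂ := ∑ j, (t j : ℂ) • e j

theorem tv_sub (e : Fin d → Fin n → ℂ) (t t' : Fin d → ℝ) : tv e t - tv e t' = ∑ j, ((t j - t' j : ℝ) : ℂ) • e j := by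
  unfold tv
  rw [← Finset.sum_sub_distrib]
  refine Finset.sum_congr rfl fun j _ => ?_
  rw [← sub_smul, Complex.ofReal_sub]

theorem norm_tv_sub_le (e : Fin d → Fin n → ℂ) {t t' : Fin d → ℝ} {r : ℝ} (h : ∀ j, |t j - t' j| ≤ r) : ‖tv e t - tv e t'‖ ≤ r * ∑ j, ‖e j‖ := by
  rw [tv_sub, Finset.mul_sum]
  refine (norm_sum_le _ _).trans (Finset.sum_le_sum fun j _ => ?_)
  rw [norm_smul, Complex.norm_real, Real.norm_eq_abs]
  exact mul_le_mul_of_nonneg_right (h j) (norm_nonneg _)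

theorem continuous_tv (e : Fin d → Fin n → ℂ) : Continuous (tv e) := by
  unfold tv
  fun_prop

/-- the points near `K` -/
def TT (v : Fin n → ℂ) (K : Set (Fin n → ℂ)) (η : ℝ) : Set (Fin n → ℂ) := {y | ∃ c : ℂ, ‖c‖ ≤ 1 ∧ ∃ r : Fin n → ℂ, ‖r‖ ≤ η ∧ y + c • v + r ∈ K}

theorem TT_mono {v : Fin n → ℂ} {K : Set (Fin n → ℂ)} {η η' : ℝ} (h : η ≤ η') : TT v K η ⊆ TT v K η' := fun _ ⟨c, hc, r, hr, hm⟩ => ⟨c, hc, r, hr.trans h, hm⟩

theorem TT_closed (v : Fin n → ℂ) {K : Set (Fin n → ℂ)} (hK : IsClosed K) (η : ℝ) : IsClosed (TT v K η) := by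
  have h1 : TT v K η = K + (fun p : ℂ × (Fin n → ℂ) => -(p.1 • v + p.2)) '' (closedBall 0 1 ×ˢ closedBall 0 η) := by
    ext y
    rw [Set.mem_add]
    constructor
    · rintro ⟨c, hc, r, hr, hm⟩
      refine ⟨y + c • v + r, hm, -(c • v + r), ⟨(c, r), ⟨by simpa using hc, by simpa using hr⟩, rfl⟩, by abel⟩
    · rintro ⟨k, hk, _, ⟨⟨c, r⟩, ⟨hc, hr⟩, rfl⟩, rfl⟩
      refine ⟨c, by simpa using hc, r, by simpa using hr, ?_⟩
      have h2 : k + -(c • v + r) + c • v + r = k := by abel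
      simp only at h2 ⊢
      rw [h2]
      exact hk
  rw [h1]
  refine hK.add_right_of_isCompact ?_
  exact ((isCompact_closedBall _ _).prod (isCompact_closedBall _ _)).image (by fun_prop)

theorem TT_near {v : Fin n → ℂ} {K : Set (Fin n → ℂ)} {η r : ℝ} {y y' : Fin n → ℂ} (h : y ∈ TT v K η) (hr : ‖y - y'‖ ≤ r) : y' ∈ TT v K (η + r) := by
  obtain ⟨c, hc, s, hs, hm⟩ := h
  refine ⟨c, hc, s + (y - y'), (norm_add_le _ _).trans (add_le_add hs hr), ?_⟩
  have h1 : y' + c • v + (s + (y - y')) = y + c • v + s := by abel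
  rw [h1]
  exact hm

theorem TT_zero {v : Fin n → ℂ} {K : Set (Fin n → ℂ)} (hK : IsClosed K) {y : Fin n → ℂ} (h : ∀ k : ℕ, y ∈ TT v K (1 / (k + 1))) : y ∈ TT v K 0 := by
  by_contra hy
  obtain ⟨δ, hδ, hball⟩ := Metric.isOpen_iff.1 (TT_closed v hK 0).isOpen_compl y hy
  obtain ⟨k, hk⟩ := exists_nat_one_div_lt hδ
  obtain ⟨c, hc, r, hr, hm⟩ := h k
  refine hball (a := y + r) ?_ ⟨c, hc, 0, by simp, ?_⟩
  · rw [mem_ball, dist_eq_norm, add_sub_cancel_left]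
    exact hr.trans_lt hk
  · have h1 : y + r + c • v + 0 = y + c • v + r := by rw [add_zero]; abel
    rw [h1]
    exact hm

theorem TT_periodic {Λ : AddSubgroup (Fin n → ℂ)} {v : Fin n → ℂ} {K : Set (Fin n → ℂ)} (hper : ∀ y ∈ K, ∀ l ∈ Λ, y + l ∈ K) {η : ℝ} {y l : Fin n → ℂ} (hy : y ∈ TT v K η)
    (hl : l ∈ Λ) : y + l ∈ TT v K η := by
  obtain ⟨c, hc, r, hr, hm⟩ := hy
  refine ⟨c, hc, r, hr, ?_⟩
  have h1 : y + l + c • v + r = y + c • v + r + l := by abel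
  rw [h1]
  exact hper _ hm _ hl

/-- the slices of small thickenings are small -/
theorem small_slice {v : Fin n → ℂ} (e : Fin d → Fin n → ℂ) {K : Set (Fin n → ℂ)} (hK : IsClosed K) (b : Fin n → ℂ)
    (hnull : volume {t : Fin d → ℝ | ∃ c : ℂ, ‖c‖ ≤ 1 ∧ b + tv e t + c • v ∈ K} = 0) {δ : ENNReal} (hδ : 0 < δ) :
    ∃ η : ℝ, 0 < η ∧ volume ({t : Fin d → ℝ | b + tv e t ∈ TT v K η} ∩ Icc 0 1) < δ := by
  have hcl : ∀ η, IsClosed {t : Fin d → ℝ | b + tv e t ∈ TT v K η} := fun η =>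
    (TT_closed v hK η).preimage (continuous_const.add (continuous_tv e))
  have hanti : Antitone fun k : ℕ => {t : Fin d → ℝ | b + tv e t ∈ TT v K (1 / (k + 1))} ∩ Icc 0 1 := by
    intro k k' hkk
    refine inter_subset_inter_left _ fun t ht => TT_mono ?_ ht
    exact one_div_le_one_div_of_le (by positivity) (by exact_mod_cast Nat.succ_le_succ hkk)
  have hfin : ∃ k : ℕ, volume ({t : Fin d → ℝ | b + tv e t ∈ TT v K (1 / (k + 1))} ∩ Icc 0 1) ≠ ⊤ :=
    ⟨0, ((measure_mono inter_subset_right).trans_lt isCompact_Icc.measure_lt_top).ne⟩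
  have hlim := tendsto_measure_iInter_atTop (μ := (volume : Measure (Fin d → ℝ)))
    (fun k : ℕ => ((hcl (1 / (k + 1))).inter isClosed_Icc).measurableSet.nullMeasurableSet) hanti hfin
  have hzero : volume (⋂ k : ℕ, {t : Fin d → ℝ | b + tv e t ∈ TT v K (1 / (k + 1))} ∩ Icc 0 1) = 0 := by
    refine measure_mono_null (fun t ht => ?_) hnull
    have h1 : b + tv e t ∈ TT v K 0 := TT_zero hK fun k => (mem_iInter.1 ht k).1
    obtain ⟨c, hc, r, hr, hm⟩ := h1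
    have h2 : r = 0 := norm_le_zero_iff.1 hr
    rw [h2, add_zero] at hm
    exact ⟨c, hc, hm⟩
  rw [hzero] at hlim
  obtain ⟨k, hk⟩ := (hlim.eventually (gt_mem_nhds hδ)).exists
  exact ⟨1 / (k + 1), by positivity, hk⟩

/-- the points of the grid -/
noncomputable def gp (N : ℕ) (k : Fin d → Fin N) : Fin d → ℝ := fun j => (k j : ℕ) / (N : ℝ)

/-- the cubes of the grid -/
def cube (N : ℕ) (k : Fin d → Fin N) : Set (Fin d → ℝ) := Set.pi univ fun j => Ico (((k j : ℕ) : ℝ) / N) ((((k j : ℕ) : ℝ) + 1) / N)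

theorem cube_volume {N : ℕ} (hN : 0 < N) (k : Fin d → Fin N) : volume (cube N k) = ENNReal.ofReal ((1 / (N : ℝ)) ^ d) := by
  rw [cube, Real.volume_pi_Ico]
  have h1 : ∀ j : Fin d, ENNReal.ofReal ((((k j : ℕ) : ℝ) + 1) / N - ((k j : ℕ) : ℝ) / N) = ENNReal.ofReal (1 / N) := by
    intro j
    congr 1
    ring
  rw [Finset.prod_congr rfl fun j _ => h1 j, Finset.prod_const, Finset.card_univ, Fintype.card_fin, ENNReal.ofReal_pow (by positivity)]

theorem cube_disjoint {N : ℕ} (hN : 0 < N) {k k' : Fin d → Fin N} (h : k ≠ k') : Disjoint (cube N k) (cube N k') := by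
  rw [Set.disjoint_left]
  intro t ht ht'
  apply h
  funext j
  have h1 := ht j (mem_univ j)
  have h2 := ht' j (mem_univ j)
  have hN' : (0 : ℝ) < N := by exact_mod_cast hN
  have h3 : (((k j : ℕ) : ℝ)) < ((k' j : ℕ) : ℝ) + 1 := by
    have := h1.1.trans_lt h2.2
    rwa [div_lt_div_iff_of_pos_right hN'] at this
  have h4 : (((k' j : ℕ) : ℝ)) < ((k j : ℕ) : ℝ) + 1 := by
    have := h2.1.trans_lt h1.2
    rwa [div_lt_div_iff_of_pos_right hN'] at this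
  have h5 : (k j : ℕ) < (k' j : ℕ) + 1 := by exact_mod_cast h3
  have h6 : (k' j : ℕ) < (k j : ℕ) + 1 := by exact_mod_cast h4
  exact Fin.ext (by omega)

theorem grid_volume {N : ℕ} (hN : 0 < N) (S : Finset (Fin d → Fin N)) {A : Set (Fin d → ℝ)} (hA : ∀ k ∈ S, cube N k ⊆ A) :
    (S.card : ENNReal) * ENNReal.ofReal ((1 / (N : ℝ)) ^ d) ≤ volume A := by
  have h1 : volume (⋃ k ∈ S, cube N k) = ∑ k ∈ S, volume (cube N k) := by
    refine measure_biUnion_finset (fun k _ k' _ h => cube_disjoint hN h) fun k _ => ?_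
    exact MeasurableSet.univ_pi fun j => measurableSet_Ico
  calc (S.card : ENNReal) * ENNReal.ofReal ((1 / (N : ℝ)) ^ d) = ∑ k ∈ S, volume (cube N k) := by
        rw [Finset.sum_congr rfl fun k _ => cube_volume hN k, Finset.sum_const, nsmul_eq_mul]
    _ = volume (⋃ k ∈ S, cube N k) := h1.symm
    _ ≤ volume A := measure_mono (iUnion₂_subset hA)

theorem cube_subset_Icc {N : ℕ} (hN : 0 < N) (k : Fin d → Fin N) : cube N k ⊆ Icc 0 1 := by
  have hN' : (0 : ℝ) < N := by exact_mod_cast hN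
  intro t ht
  constructor
  · intro j
    exact le_trans (by positivity) (ht j (mem_univ j)).1
  · intro j
    refine (ht j (mem_univ j)).2.le.trans ?_
    rw [div_le_iff₀ hN', Pi.one_apply, one_mul]
    exact_mod_cast (k j).2

theorem cube_near {N : ℕ} (hN : 0 < N) {k : Fin d → Fin N} {t : Fin d → ℝ} (ht : t ∈ cube N k) (j : Fin d) : |gp N k j - t j| ≤ 1 / N := by
  have h1 := ht j (mem_univ j)
  unfold gp
  rw [abs_le]
  have h2 : (((k j : ℕ) : ℝ) + 1) / N = ((k j : ℕ) : ℝ) / N + 1 / N := add_div _ _ _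
  have h3 := h1.2
  rw [h2] at h3
  have h4 : (0 : ℝ) ≤ 1 / N := by positivity
  constructor
  · linarith [h1.1]
  · linarith [h1.1]

/-- few grid points are returns -/
theorem few_grid {Λ : AddSubgroup (Fin n → ℂ)} (hcpt : ∃ C : ℝ, ∀ b : Fin n → ℂ, ∃ l ∈ Λ, ‖b - l‖ ≤ C) {v : Fin n → ℂ} (e : Fin d → Fin n → ℂ)
    {K : Set (Fin n → ℂ)} (hK : IsClosed K) (hper : ∀ y ∈ K, ∀ l ∈ Λ, y + l ∈ K)
    (hnull : ∀ b, volume {t : Fin d → ℝ | ∃ c : ℂ, ‖c‖ ≤ 1 ∧ b + tv e t + c • v ∈ K} = 0) {δ : ℝ} (hδ : 0 < δ) :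
    ∃ (N : ℕ) (η : ℝ), 0 < N ∧ 0 < η ∧ ∀ b, ∀ S : Finset (Fin d → Fin N), (∀ k ∈ S, b + tv e (gp N k) ∈ TT v K η) → (S.card : ℝ) ≤ δ * N ^ d := by
  by_contra hcon
  push Not at hcon
  obtain ⟨C, hC⟩ := hcpt
  choose b S hS hcard using fun m : ℕ => hcon (m + 1) (1 / (m + 1)) (Nat.succ_pos m) (by positivity)
  choose l hl hbl using fun m => hC (b m)
  obtain ⟨b₀, -, φ, hφ, hlim⟩ := (isCompact_closedBall (0 : Fin n → ℂ) C).tendsto_subseq (x := fun m => b m - l m) fun m => by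
    rw [mem_closedBall_zero_iff]; exact hbl m
  obtain ⟨η₀, hη₀, hvol⟩ := small_slice e hK b₀ (hnull b₀) (δ := ENNReal.ofReal δ) (ENNReal.ofReal_pos.2 hδ)
  -- a large index
  have h1 : Tendsto (fun m : ℕ => (1 : ℝ) / ((φ m : ℝ) + 1)) atTop (𝓝 0) := by
    have h2 := tendsto_one_div_add_atTop_nhds_zero_nat (𝕜 := ℝ)
    exact h2.comp hφ.tendsto_atTop
  have h2 : Tendsto (fun m : ℕ => (1 : ℝ) / ((φ m : ℝ) + 1) + (‖(b (φ m) - l (φ m)) - b₀‖ + (1 : ℝ) / ((φ m : ℝ) + 1) * ∑ j, ‖e j‖)) atTop (𝓝 0) := by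
    have h3 : Tendsto (fun m : ℕ => ‖(b (φ m) - l (φ m)) - b₀‖) atTop (𝓝 0) := by
      have h4 := (tendsto_sub_nhds_zero_iff.2 hlim).norm
      simpa using h4
    have h4 := h1.add (h3.add (h1.mul_const (∑ j, ‖e j‖)))
    simpa using h4
  obtain ⟨m, hm⟩ := (h2.eventually (gt_mem_nhds hη₀)).exists
  have hNpos : 0 < φ m + 1 := Nat.succ_pos _
  have hcast : ((φ m + 1 : ℕ) : ℝ) = (φ m : ℝ) + 1 := by push_cast; ring
  have hsub : ∀ k ∈ S (φ m), cube (φ m + 1) k ⊆ {t : Fin d → ℝ | b₀ + tv e t ∈ TT v K η₀} ∩ Icc 0 1 := by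
    intro k hk t ht
    refine ⟨?_, cube_subset_Icc hNpos k ht⟩
    have h5 := TT_periodic hper (hS (φ m) k hk) (Λ.neg_mem (hl (φ m)))
    have h6 : ‖b (φ m) + tv e (gp (φ m + 1) k) + -l (φ m) - (b₀ + tv e t)‖ ≤ ‖(b (φ m) - l (φ m)) - b₀‖ + (1 : ℝ) / ((φ m : ℝ) + 1) * ∑ j, ‖e j‖ := by
      have h7 : b (φ m) + tv e (gp (φ m + 1) k) + -l (φ m) - (b₀ + tv e t) = ((b (φ m) - l (φ m)) - b₀) + (tv e (gp (φ m + 1) k) - tv e t) := by abel
      rw [h7]
      refine (norm_add_le _ _).trans (add_le_add le_rfl ?_)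
      refine norm_tv_sub_le e fun j => ?_
      rw [← hcast]
      exact cube_near hNpos ht j
    have h8 := TT_near h5 h6
    refine TT_mono ?_ h8
    exact hm.le
  have hv := grid_volume hNpos (S (φ m)) hsub
  have hc := hcard (φ m)
  have h9 : ENNReal.ofReal δ ≤ ((S (φ m)).card : ENNReal) * ENNReal.ofReal ((1 / ((φ m + 1 : ℕ) : ℝ)) ^ d) := by
    rw [← ENNReal.ofReal_natCast, ← ENNReal.ofReal_mul (Nat.cast_nonneg _)]
    refine ENNReal.ofReal_le_ofReal ?_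
    rw [one_div, inv_pow, ← div_eq_mul_inv, le_div_iff₀ (by positivity)]
    exact hc.le
  exact absurd (h9.trans hv) (not_le.2 hvol)

/-- the nearest point of the lattice -/
private theorem round_near {s : ℝ} (hs : 0 < s) (w : ℂ) : ‖w - (s : ℂ) * ((round (w.re / s) : ℝ) + (round (w.im / s) : ℝ) * Complex.I)‖ ≤ s := by
  have h1 : ∀ x : ℝ, |x - s * round (x / s)| ≤ s / 2 := by
    intro x
    have h2 := abs_sub_round (x / s)
    have h3 : x - s * round (x / s) = s * (x / s - round (x / s)) := by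
      rw [mul_sub, mul_div_cancel₀ x hs.ne']
    rw [h3, abs_mul, abs_of_pos hs]
    calc s * |x / s - (round (x / s) : ℝ)| ≤ s * (1 / 2) := mul_le_mul_of_nonneg_left h2 hs.le
      _ = s / 2 := by ring
  refine (Complex.norm_le_abs_re_add_abs_im _).trans ?_
  have h4 : (w - (s : ℂ) * ((round (w.re / s) : ℝ) + (round (w.im / s) : ℝ) * Complex.I)).re = w.re - s * round (w.re / s) := by simp
  have h5 : (w - (s : ℂ) * ((round (w.re / s) : ℝ) + (round (w.im / s) : ℝ) * Complex.I)).im = w.im - s * round (w.im / s) := by simp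
  rw [h4, h5]
  linarith [h1 w.re, h1 w.im]

private theorem round_le {s x ρ : ℝ} (hs : 0 < s) (hx : |x| ≤ ρ) {m : ℕ} (hm : ρ / s + 1 ≤ m) : round (x / s) ∈ Finset.Icc (-(m : ℤ)) m := by
  have h1 : |x / s| ≤ ρ / s := by
    rw [abs_div, abs_of_pos hs]
    exact div_le_div_of_nonneg_right hx hs.le
  have h2 := abs_le.1 (abs_sub_round (x / s))
  have h3 := abs_le.1 h1
  rw [Finset.mem_Icc]
  constructor
  · have h4 : (-(m : ℝ)) ≤ (round (x / s) : ℝ) := by linarith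
    exact_mod_cast h4
  · have h4 : (round (x / s) : ℝ) ≤ m := by linarith
    exact_mod_cast h4

/-- **Rare returns.** -/
theorem rare_abs {Λ : AddSubgroup (Fin n → ℂ)} (hcpt : ∃ C : ℝ, ∀ b : Fin n → ℂ, ∃ l ∈ Λ, ‖b - l‖ ≤ C) {v : Fin n → ℂ} {e : Fin d → Fin n → ℂ}
    (he : ∀ (t : Fin d → ℝ) (ε : ℝ), 0 < ε → ∃ z : ℂ, ∃ l ∈ Λ, ‖z • v + l - ∑ j, (t j : ℂ) • e j‖ < ε)
    {K : Set (Fin n → ℂ)} (hK : IsClosed K) (hper : ∀ y ∈ K, ∀ l ∈ Λ, y + l ∈ K)
    (hnull : ∀ b, volume {t : Fin d → ℝ | ∃ c : ℂ, ‖c‖ ≤ 1 ∧ b + ∑ j, (t j : ℂ) • e j + c • v ∈ K} = 0)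
    {s : ℝ} (hs : 0 < s) (hs1 : s ≤ 1) (n₀ : ℕ) {ε : ℝ} (hε : 0 < ε) :
    ∃ R₀ : ℝ, 0 < R₀ ∧ ∀ R : ℝ, R₀ ≤ R → ∀ (b : Fin n → ℂ) (z₀ : ℂ) (H : Finset ℂ), (∀ z ∈ H, ‖z - z₀‖ ≤ R ∧ b + z • v ∈ K) →
      (∀ w : ℂ, (H.filter fun z => ‖z - w‖ ≤ s).card ≤ n₀) → (H.card : ℝ) ≤ ε * R ^ 2 := by
  classical
  obtain ⟨δ, hδd⟩ : ∃ δ : ℝ, δ = ε * s ^ 2 / (81 * (n₀ + 1)) := ⟨_, rfl⟩
  have hδ : 0 < δ := by rw [hδd]; positivity
  obtain ⟨N, η, hN, hη, hfew⟩ := few_grid hcpt e hK hper hnull hδ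
  choose a l hl hal using fun k : Fin d → Fin N => he (gp N k) η hη
  obtain ⟨A, hA0, hA⟩ : ∃ A : ℝ, 0 ≤ A ∧ ∀ k, ‖a k‖ ≤ A :=
    ⟨∑ k, ‖a k‖, Finset.sum_nonneg fun k _ => norm_nonneg _, fun k => Finset.single_le_sum (f := fun k => ‖a k‖) (fun k _ => norm_nonneg _) (Finset.mem_univ k)⟩
  refine ⟨max A s, lt_max_of_lt_right hs, fun R hR b z₀ H hH hn₀ => ?_⟩
  have hRA : A ≤ R := (le_max_left _ _).trans hR
  have hRs : s ≤ R := (le_max_right _ _).trans hR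
  have hR0 : 0 < R := hs.trans_le hRs
  obtain ⟨m, hm⟩ : ∃ m : ℕ, m = ⌈(R + A) / s + 1⌉₊ := ⟨_, rfl⟩
  have hm1 : (R + A) / s + 1 ≤ m := by rw [hm]; exact Nat.le_ceil _
  have hm2 : (m : ℝ) ≤ (R + A) / s + 2 := by
    rw [hm]
    have := (Nat.ceil_lt_add_one (a := (R + A) / s + 1) (by positivity)).le
    linarith
  -- the cell of a pair
  obtain ⟨cell, hcell⟩ : ∃ cell : ℂ × (Fin d → Fin N) → ℤ × ℤ, ∀ p, cell p = (round ((p.1 - a p.2 - z₀).re / s), round ((p.1 - a p.2 - z₀).im / s)) := ⟨_, fun _ => rfl⟩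
  obtain ⟨P, hP⟩ : ∃ P : ℤ × ℤ → ℂ, ∀ x, P x = z₀ + (s : ℂ) * ((x.1 : ℝ) + (x.2 : ℝ) * Complex.I) := ⟨_, fun _ => rfl⟩
  have hnear : ∀ p, ‖p.1 - a p.2 - P (cell p)‖ ≤ s := by
    intro p
    rw [hP, hcell]
    have h1 := round_near hs (p.1 - a p.2 - z₀)
    have h2 : p.1 - a p.2 - (z₀ + (s : ℂ) * (((round ((p.1 - a p.2 - z₀).re / s) : ℤ) : ℝ) + ((round ((p.1 - a p.2 - z₀).im / s) : ℤ) : ℝ) * Complex.I)) =
        p.1 - a p.2 - z₀ - (s : ℂ) * (((round ((p.1 - a p.2 - z₀).re / s) : ℤ) : ℝ) + ((round ((p.1 - a p.2 - z₀).im / s) : ℤ) : ℝ) * Complex.I) := by ring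
    rw [h2]
    exact h1
  have hmaps : ∀ p ∈ H ×ˢ (Finset.univ : Finset (Fin d → Fin N)), cell p ∈ Finset.Icc (-(m : ℤ)) m ×ˢ Finset.Icc (-(m : ℤ)) m := by
    rintro ⟨z, k⟩ hp
    rw [Finset.mem_product] at hp
    have hz := (hH z hp.1).1
    have h1 : ‖z - a k - z₀‖ ≤ R + A := by
      have h2 : z - a k - z₀ = (z - z₀) - a k := by ring
      rw [h2]
      exact (norm_sub_le _ _).trans (add_le_add hz (hA k))
    rw [hcell, Finset.mem_product]
    exact ⟨round_le hs ((Complex.abs_re_le_norm _).trans h1) hm1, round_le hs ((Complex.abs_im_le_norm _).trans h1) hm1⟩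
  -- the number of the pairs in a cell
  obtain ⟨B, hB⟩ : ∃ B : ℕ, B = ⌊δ * (N : ℝ) ^ d⌋₊ := ⟨_, rfl⟩
  have hfib : ∀ x ∈ Finset.Icc (-(m : ℤ)) m ×ˢ Finset.Icc (-(m : ℤ)) m,
      ((H ×ˢ (Finset.univ : Finset (Fin d → Fin N))).filter fun p => cell p = x).card ≤ n₀ * B := by
    intro x _
    obtain ⟨S, hS⟩ : ∃ S : Finset (Fin d → Fin N), S = ((H ×ˢ (Finset.univ : Finset (Fin d → Fin N))).filter fun p => cell p = x).image Prod.snd := ⟨_, rfl⟩
    have hS1 : ∀ k ∈ S, (b + P x • v) + tv e (gp N k) ∈ TT v K η := by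
      intro k hk
      rw [hS, Finset.mem_image] at hk
      obtain ⟨⟨z, k'⟩, hp, rfl⟩ := hk
      rw [Finset.mem_filter, Finset.mem_product] at hp
      obtain ⟨⟨hz, -⟩, hx⟩ := hp
      have hK1 := hper _ (hH z hz).2 _ (hl k')
      refine ⟨z - a k' - P x, ?_, a k' • v + l k' - tv e (gp N k'), (hal k').le, ?_⟩
      · have h1 := hnear (z, k')
        rw [hx] at h1
        exact h1.trans hs1
      · have h1 : b + P x • v + tv e (gp N k') + (z - a k' - P x) • v + (a k' • v + l k' - tv e (gp N k')) = b + z • v + l k' := by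
          rw [sub_smul, sub_smul]
          abel
        rw [h1]
        exact hK1
    have hS2 : S.card ≤ B := by
      rw [hB]
      exact Nat.le_floor (hfew _ S hS1)
    refine (Finset.card_le_mul_card_image_of_maps_to (f := Prod.snd) (t := S) (fun p hp => by rw [hS]; exact Finset.mem_image_of_mem _ hp) n₀ fun k hk => ?_).trans
      (Nat.mul_le_mul_left _ hS2)
    refine le_trans ?_ (hn₀ (P x + a k))
    refine Finset.card_le_card_of_injOn Prod.fst (fun p hp => ?_) fun p hp p' hp' h => ?_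
    · rw [Finset.mem_coe, Finset.mem_filter, Finset.mem_filter, Finset.mem_product] at hp
      rw [Finset.mem_coe, Finset.mem_filter]
      refine ⟨hp.1.1.1, ?_⟩
      have h1 := hnear p
      rw [hp.1.2, hp.2] at h1
      have h2 : p.1 - (P x + a k) = p.1 - a k - P x := by ring
      rw [h2]
      exact h1
    · rw [Finset.mem_coe, Finset.mem_filter] at hp hp'
      exact Prod.ext h (hp.2.trans hp'.2.symm)
  have hcount := Finset.card_le_mul_card_image_of_maps_to hmaps (n₀ * B) hfib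
  rw [Finset.card_product, Finset.card_product, Int.card_Icc, Finset.card_univ, Fintype.card_fun, Fintype.card_fin, Fintype.card_fin] at hcount
  have hcard : ((m : ℤ) + 1 - -(m : ℤ)).toNat = 2 * m + 1 := by omega
  rw [hcard] at hcount
  have hcount' : (H.card : ℝ) * (N : ℝ) ^ d ≤ n₀ * B * ((2 * m + 1) * (2 * m + 1)) := by exact_mod_cast hcount
  have hBle : (B : ℝ) ≤ δ * (N : ℝ) ^ d := by
    rw [hB]
    exact Nat.floor_le (by positivity)
  have hNd : (0 : ℝ) < (N : ℝ) ^ d := by positivity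
  have h1 : (H.card : ℝ) ≤ n₀ * δ * ((2 * m + 1) * (2 * m + 1)) := by
    refine le_of_mul_le_mul_right ?_ hNd
    calc (H.card : ℝ) * (N : ℝ) ^ d ≤ n₀ * B * ((2 * m + 1) * (2 * m + 1)) := hcount'
      _ ≤ n₀ * (δ * (N : ℝ) ^ d) * ((2 * m + 1) * (2 * m + 1)) := by gcongr
      _ = n₀ * δ * ((2 * m + 1) * (2 * m + 1)) * (N : ℝ) ^ d := by ring
  have h2 : (2 * m + 1 : ℝ) ≤ 9 * R / s := by
    have h3 : (R + A) / s ≤ 2 * R / s := by
      refine div_le_div_of_nonneg_right ?_ hs.le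
      linarith
    have h4 : (1 : ℝ) ≤ R / s := by rwa [one_le_div hs]
    have h5 : 9 * R / s = 2 * (2 * R / s) + 5 * (R / s) := by ring
    rw [h5]
    linarith
  have h3 : (n₀ : ℝ) ≤ n₀ + 1 := by linarith
  calc (H.card : ℝ) ≤ n₀ * δ * ((2 * m + 1) * (2 * m + 1)) := h1
    _ ≤ (n₀ + 1) * δ * ((9 * R / s) * (9 * R / s)) := by gcongr
    _ = ε * R ^ 2 := by
      rw [hδd]
      field_simp
      ring

end Pool.Agent.H22.TB
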